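import Mathlib

namespace Pool.Agent.Results.MP_90db2d_al.Exists

/-- x 0, ..., x n is a left path of length n in the commuting graph of S -/
def LeftPath {S : Type} [Semigroup S] (n : ℕ) (x : Fin (n + 1) → S) : Prop :=
  Function.Injective x ∧ x 0 ≠ x (Fin.last n) ∧ (∀ i, ¬ ∀ y, x i * y = y * x i) ∧
    (∀ i : Fin n, x i.castSucc * x i.succ = x i.succ * x i.castSucc) ∧
    ∀ i, x 0 * x i = x (Fin.last n) * x i

def tab : ℕ := 264264527327583949377797090151381500754717101926037332292767804256542388019810814962275054103496633450503531635653338965930685666636684609966826457657483965349743565062712406381299569037702909893313563350560556439406912521795917691190269445319596358294621840726143278652585010479980995865698073360618869010476307875248292523484497777090514453589920333782247231327274104377521789667851044216234553783663610802806334940292462207490757323298528777159848575409398986739170211842326575381735987723047680812487562297932300658413474875503545512407734763071388216798274421063654347475160163576558788256265032253017981323209727777771989396137301363671303281337085096308262483359729954445390683422431528729847652578323859786107486345223441354775789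2734843529316255431048968731854233384014570232149903878287085409097968521135560749850023895525546079591495866705524551938658326137326108022733587333443862861045905187403544297590821716377762252238043650154153157756809698659914571963906347783211192174904568194576421647101775097152907750270584174423908744484601645971720310037961831061208164078390474829139075818255409948201490459463387068824094942248712464285872847167026272238969268801854715030337404486465981492421162560414357499691916869996573739238155194461304645377660159218655133268790053583453306490618297498315984555563153324232244861295933506850335052704088210551520580873683041889106137499335202208220463893377354581107546812730558371986478268195508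

def mul (a b : Fin 31) : Fin 31 := Fin.ofNat 31 ((tab >>> (5 * (31 * a.val + b.val))) % 32)

theorem assoc : ∀ a b c : Fin 31, mul (mul a b) c = mul a (mul b c) := by decide +kernel

theorem inv1 : ∀ a : Fin 31, ∃ b, mul (mul a b) a = a ∧ mul (mul b a) b = b := by decide +kernel

theorem inv2 : ∀ a b c : Fin 31, mul (mul a b) a = a ∧ mul (mul b a) b = b →
    mul (mul a c) a = a ∧ mul (mul c a) c = c → c = b := by decide +kernel

theorem no1 : ∀ a b : Fin 31, a ≠ b → (¬ ∀ y, mul a y = mul y a) → (¬ ∀ y, mul b y = mul y b) →
    mul a b = mul b a → mul a a = mul b a → mul a b ≠ mul b b := by decide +kernel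

theorem result : ∃ (S : Type) (_ : Semigroup S), Finite S ∧ (∃ a b : S, a * b ≠ b * a) ∧
    (∀ a : S, ∃! b, a * b * a = a ∧ b * a * b = b) ∧
    IsLeast {n | ∃ x : Fin (n + 1) → S, LeftPath n x} 2 := by
  let inst : Semigroup (Fin 31) := { mul := mul, mul_assoc := assoc }
  refine ⟨Fin 31, inst, inferInstance, ⟨0, 1, (by decide +kernel : mul 0 1 ≠ mul 1 0)⟩,
    fun a => ?_, ⟨![25, 3, 0], ?_⟩, ?_⟩
  · obtain ⟨b, hb⟩ := inv1 a
    exact ⟨b, hb, fun c hc => inv2 a b c hb hc⟩
  · refine ⟨by decide, by decide, ?_, ?_, ?_⟩
    · change ∀ i : Fin 3, ¬ ∀ y, mul (![25, 3, 0] i) y = mul y (![25, 3, 0] i)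
      decide +kernel
    · change ∀ i : Fin 2, mul (![25, 3, 0] i.castSucc) (![25, 3, 0] i.succ) =
        mul (![25, 3, 0] i.succ) (![25, 3, 0] i.castSucc)
      decide +kernel
    · change ∀ i : Fin 3, mul 25 (![25, 3, 0] i) = mul 0 (![25, 3, 0] i)
      decide +kernel
  · rintro n ⟨x, -, h2, h3, h4, h5⟩
    by_contra hn
    have : n = 0 ∨ n = 1 := by omega
    rcases this with rfl | rfl
    · exact h2 rfl
    · exact no1 (x 0) (x 1) h2 (h3 0) (h3 1) (h4 0) (h5 0) (h5 1)

end Pool.Agent.Results.MP_90db2d_al.Exists
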